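import Pool.Agent.helper37.ND.Spec

/-!
# GNV: some difference of multiplicities in an orbit is not zero
-/

set_option autoImplicit false

namespace Pool.Agent.ND

open Pool.Agent.helper58.DC Pool.Agent.DI Pool.Agent.GR Pool.Agent.OB Pool.Agent.DR Pool.Agent.FI Pool.Agent.FI3 Pool.Agent.FI4 Pool.Agent.FI4I Pool.Agent.LE Pool.Agent.L5 Pool.Agent.NAB

theorem GNV_ne {p : ℕ} {M : Ideal (integralClosure ℤ ℂ)} (hM : Setup p M) {G : Type} [Group G] [Finite G]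
    {L : Subgroup G} {ψ : G → ℂ} (hψ : ψ ∈ IrrOn L) {y : G} (hn : ¬ InM M (cc ψ (cls L y))) : ψ y ≠ 0 := by
  intro h0
  apply hn
  have h1 : cc ψ (cls L y) = 0 := by
    unfold cc
    have h2 : ∀ x : G, cls L y x * ψ x = 0 := by
      intro x
      unfold cls
      by_cases hx : ∃ l ∈ L, l * y * l⁻¹ = x
      · obtain ⟨l, hl, rfl⟩ := hx
        rw [IrrOn_conj hψ hl, h0, mul_zero]
      · rw [if_neg hx, zero_mul]
    rw [finsum_congr h2, finsum_zero, zero_div]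
  rw [h1]
  exact InM.zero hM

theorem GNV (hGVF : GVF_stmt) (hGST : GST_stmt) (hCLS : CLS_stmt) : GNV_stmt := by
  intro p e m t M hM G _ _ χ Z z x hZ L hL ψ hψ hU
  by_contra hcon
  push Not at hcon
  have hne : ψ (z * x) ≠ 0 := GNV_ne hM hψ.1 hU.ne
  apply hne
  rw [hGVF p e m t M hM G χ Z z x hZ L hL ψ hψ]
  have h1 : ∀ θ : G → ℂ, (∑ᶠ (_ : θ ∈ GS p e m M χ (cz Z) Z), ∑ᶠ ν : Z →* ℂˣ,
      θ (z * x) * lam Z t ν (z * x) * (mt (cz Z) ψ θ - mt (cz Z) ψ (st Z t ν θ))) = 0 := by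
    intro θ
    classical
    rw [finsum_eq_dif]
    split_ifs with hθ
    swap
    · rfl
    apply finsum_eq_zero_of_forall_eq_zero
    intro ν
    rw [← hcon θ hθ (st Z t ν θ) (hGST p e m t M hM G χ Z z x hZ θ hθ ν).1 ⟨ν, rfl⟩, sub_self, mul_zero]
  rw [finsum_congr h1, finsum_zero, mul_zero, neg_zero]

end Pool.Agent.ND
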